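import Pool.Agent.R246.GF.Stm

set_option autoImplicit false

namespace Pool.Agent.R141.GF

open Matrix Filter Pool.Agent.R246.GF

/-- weights from exponents -/
def wt {κ : ℕ} (x : Fin κ → ℕ) : Fin κ → ℕ :=
  fun i => 2 * ∑ j ∈ Finset.univ.filter (fun j : Fin κ => i ≤ j), x j

theorem tail_step {κ : ℕ} (x : Fin κ → ℕ) (i : Fin κ) :
    ∑ j ∈ Finset.univ.filter (fun j : Fin κ => i ≤ j), x j =
      x i + ∑ j ∈ Finset.univ.filter (fun j : Fin κ => i < j), x j := by
  have h : Finset.univ.filter (fun j : Fin κ => i ≤ j) =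
      insert i (Finset.univ.filter (fun j : Fin κ => i < j)) := by
    ext j
    simp only [Finset.mem_filter, Finset.mem_univ, true_and, Finset.mem_insert]
    rw [le_iff_eq_or_lt]
    exact or_congr_left eq_comm
  rw [h, Finset.sum_insert (by simp)]

theorem tail_lt {κ : ℕ} (x : Fin κ → ℕ) (i : Fin κ) :
    ∑ j ∈ Finset.univ.filter (fun j : Fin κ => i < j), x j =
      if h : (i : ℕ) + 1 < κ then
        ∑ j ∈ Finset.univ.filter (fun j : Fin κ => (⟨(i : ℕ) + 1, h⟩ : Fin κ) ≤ j), x j else 0 := by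
  split_ifs with h
  · rfl
  · apply Finset.sum_eq_zero
    intro j hj
    have := (Finset.mem_filter.1 hj).2
    have h2 := j.2
    rw [Fin.lt_def] at this
    omega

theorem wt_expo {κ : ℕ} (x : Fin κ → ℕ) : expo (wt x) = x := by
  funext i
  have h1 := tail_step x i
  rw [tail_lt] at h1
  unfold expo wt
  split_ifs at h1 ⊢ with h
  · rw [h1]
    omega
  · rw [h1]
    omega

theorem wt_inj {κ : ℕ} : Function.Injective (wt (κ := κ)) := fun x y h => by
  rw [← wt_expo x, ← wt_expo y, h]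

theorem expo_wt {κ : ℕ} (l : Fin κ → ℕ) (hl : l ∈ Lam κ) : wt (expo l) = l := by
  obtain ⟨ha, he⟩ := hl
  have key : ∀ d : ℕ, ∀ i : Fin κ, (i : ℕ) + d + 1 = κ → wt (expo l) i = l i := by
    intro d
    induction d with
    | zero =>
      intro i hi
      have h1 := tail_step (expo l) i
      rw [tail_lt, dif_neg (by omega)] at h1
      unfold wt
      rw [h1]
      unfold expo
      rw [dif_neg (by omega)]
      obtain ⟨a, ha'⟩ := he i
      omega
    | succ d ih =>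
      intro i hi
      have hi' : (i : ℕ) + 1 < κ := by omega
      have h1 := tail_step (expo l) i
      rw [tail_lt, dif_pos hi'] at h1
      have h2 := ih ⟨(i : ℕ) + 1, hi'⟩ (by simp only; omega)
      unfold wt at h2 ⊢
      rw [h1]
      have h3 : expo l i = (l i - l ⟨(i : ℕ) + 1, hi'⟩) / 2 := by
        unfold expo
        rw [dif_pos hi']
      have h4 : l ⟨(i : ℕ) + 1, hi'⟩ ≤ l i := ha (by rw [Fin.le_def]; simp)
      obtain ⟨a, ha'⟩ := he i
      obtain ⟨b, hb'⟩ := he ⟨(i : ℕ) + 1, hi'⟩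
      rw [h3]
      omega
  funext i
  exact key (κ - 1 - i) i (by have := i.2; omega)

theorem wt_mem {κ : ℕ} (x : Fin κ → ℕ) : wt x ∈ Lam κ := by
  refine ⟨fun i i' hii => ?_, fun i => ⟨_, two_mul _⟩⟩
  unfold wt
  apply Nat.mul_le_mul_left
  apply Finset.sum_le_sum_of_subset
  intro j hj
  simp only [Finset.mem_filter, Finset.mem_univ, true_and] at hj ⊢
  exact hii.trans hj

/-- the total -/
def SS {κ : ℕ} (x : Fin κ → ℕ) : ℕ :=
  ∑ i, ∑ j ∈ Finset.univ.filter (fun j : Fin κ => i ≤ j), x j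

theorem sum_wt {κ : ℕ} (x : Fin κ → ℕ) : ∑ i, wt x i = 2 * SS x := by
  unfold wt SS
  rw [Finset.mul_sum]

theorem SS_mono {κ : ℕ} (x y : Fin κ → ℕ) (h : ∀ i, x i ≤ y i) : SS x ≤ SS y :=
  Finset.sum_le_sum fun _ _ => Finset.sum_le_sum fun j _ => h j

theorem SS_add {κ : ℕ} (x y : Fin κ → ℕ) : SS (fun i => x i + y i) = SS x + SS y := by
  unfold SS
  rw [← Finset.sum_add_distrib]
  exact Finset.sum_congr rfl fun _ _ => Finset.sum_add_distrib

theorem SS_two {κ : ℕ} (x : Fin κ → ℕ) : SS (fun i => 2 * x i) = 2 * SS x := by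
  unfold SS
  rw [Finset.mul_sum]
  exact Finset.sum_congr rfl fun _ _ => by rw [Finset.mul_sum]

theorem fin_bd {κ : ℕ} (p : (Fin κ → ℕ) → Prop) (m : ℕ) :
    {l : Fin κ → ℕ | p l ∧ ∑ i, l i ≤ m}.Finite := by
  apply (Set.Finite.pi (fun _ : Fin κ => Set.finite_Iic m)).subset
  intro l hl i _
  exact (Finset.single_le_sum (fun j _ => Nat.zero_le (l j)) (Finset.mem_univ i)).trans hl.2

theorem cnt : SCNT := by
  classical
  intro κ hκ T R0 hT
  choose y hy1 hy2 using hT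
  set c : ℕ := SS (fun _ : Fin κ => R0) with hc
  set C : ℕ := (2 * R0 + 2) ^ κ with hC
  have hCpos : 0 < C := by rw [hC]; positivity
  set A : ℕ → ℕ := fun m => Nat.card {l : Fin κ → ℕ | l ∈ Lam κ ∧ l ∈ T ∧ ∑ i, l i ≤ 2 * m} with hA
  set D : ℕ → ℕ := fun m => Nat.card {l : Fin κ → ℕ | l ∈ Lam κ ∧ ∑ i, l i ≤ 2 * m} with hD
  have hfinA : ∀ m, {l : Fin κ → ℕ | l ∈ Lam κ ∧ l ∈ T ∧ ∑ i, l i ≤ 2 * m}.Finite := by
    intro m
    refine (fin_bd (fun l => l ∈ Lam κ) (2 * m)).subset ?_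
    rintro l ⟨h1, _, h3⟩
    exact ⟨h1, h3⟩
  have hfinD : ∀ m, {l : Fin κ → ℕ | l ∈ Lam κ ∧ ∑ i, l i ≤ 2 * m}.Finite :=
    fun m => fin_bd (fun l => l ∈ Lam κ) (2 * m)
  have hDA : ∀ m, 2 * c ≤ m → D m ≤ A m * C := by
    intro m hm
    haveI := (hfinA m).to_subtype
    -- the map
    have hmem : ∀ l : {l : Fin κ → ℕ | l ∈ Lam κ ∧ ∑ i, l i ≤ 2 * m},
        wt (y (fun i => expo l.1 i / 2)) ∈
          {l : Fin κ → ℕ | l ∈ Lam κ ∧ l ∈ T ∧ ∑ i, l i ≤ 2 * m} := by
      rintro ⟨l, hl1, hl2⟩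
      refine ⟨wt_mem _, hy2 _, ?_⟩
      rw [sum_wt]
      have h1 : SS (y (fun i => expo l i / 2)) ≤ SS (fun i => expo l i / 2) + c := by
        rw [hc, ← SS_add]
        exact SS_mono _ _ (fun i => (hy1 _ i).2)
      have h2 : 2 * SS (fun i => expo l i / 2) ≤ SS (expo l) := by
        rw [← SS_two]
        exact SS_mono _ _ (fun i => Nat.mul_div_le _ _)
      have h3 : 2 * SS (expo l) ≤ 2 * m := by
        rw [← sum_wt, expo_wt l hl1]
        exact hl2
      show 2 * SS (y (fun i => expo l i / 2)) ≤ 2 * m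
      omega
    let F : {l : Fin κ → ℕ | l ∈ Lam κ ∧ ∑ i, l i ≤ 2 * m} →
        {l : Fin κ → ℕ | l ∈ Lam κ ∧ l ∈ T ∧ ∑ i, l i ≤ 2 * m} × (Fin κ → Fin (2 * R0 + 2)) :=
      fun l => (⟨_, hmem l⟩, fun i =>
        ⟨expo l.1 i + 2 * R0 - 2 * y (fun i => expo l.1 i / 2) i, by
          have := (hy1 (fun i => expo l.1 i / 2) i).1
          omega⟩)
    have hF : Function.Injective F := by
      intro l l' h
      have h1 : wt (y (fun i => expo l.1 i / 2)) = wt (y (fun i => expo l'.1 i / 2)) :=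
        congrArg Subtype.val (congrArg Prod.fst h)
      have h2 := wt_inj h1
      have h3 := congrArg Prod.snd h
      apply Subtype.ext
      rw [← expo_wt l.1 l.2.1, ← expo_wt l'.1 l'.2.1]
      congr 1
      funext i
      have h4 := congrArg Fin.val (congrFun h3 i)
      have h5 : expo l.1 i + 2 * R0 - 2 * y (fun i => expo l.1 i / 2) i =
        expo l'.1 i + 2 * R0 - 2 * y (fun i => expo l'.1 i / 2) i := h4
      rw [h2] at h5
      have h6 := (hy1 (fun i => expo l.1 i / 2) i).2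
      rw [h2] at h6
      have h7 := (hy1 (fun i => expo l'.1 i / 2) i).2
      omega
    have h8 := Nat.card_le_card_of_injective F hF
    rw [Nat.card_prod] at h8
    have h9 : Nat.card (Fin κ → Fin (2 * R0 + 2)) = C := by
      rw [Nat.card_eq_fintype_card, Fintype.card_fun, Fintype.card_fin, Fintype.card_fin]
    rw [h9] at h8
    exact h8
  have hDpos : ∀ m, 0 < D m := by
    intro m
    haveI := (hfinD m).to_subtype
    haveI : Nonempty {l : Fin κ → ℕ | l ∈ Lam κ ∧ ∑ i, l i ≤ 2 * m} :=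
      ⟨⟨fun _ => 0, ⟨fun _ _ _ => le_rfl, fun _ => ⟨0, rfl⟩⟩, by simp⟩⟩
    exact Nat.card_pos
  have hAD : ∀ m, A m ≤ D m := by
    intro m
    exact Nat.card_mono (hfinD m) (fun l hl => ⟨hl.1, hl.2.2⟩)
  have hlow : ∀ᶠ m : ℕ in atTop, (1 : ℝ) / C ≤ (A m : ℝ) / (D m : ℝ) := by
    filter_upwards [eventually_ge_atTop (2 * c)] with m hm
    have h1 : (0 : ℝ) < D m := by exact_mod_cast hDpos m
    have h2 : (0 : ℝ) < C := by exact_mod_cast hCpos
    rw [div_le_div_iff₀ h2 h1, one_mul]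
    exact_mod_cast hDA m hm
  have hup : ∀ m, (A m : ℝ) / (D m : ℝ) ≤ 1 := by
    intro m
    have h1 : (0 : ℝ) < D m := by exact_mod_cast hDpos m
    rw [div_le_one h1]
    exact_mod_cast hAD m
  have hCr : (0 : ℝ) < 1 / C := by
    have : (0 : ℝ) < C := by exact_mod_cast hCpos
    positivity
  refine lt_of_lt_of_le hCr (Filter.le_liminf_of_le ?_ hlow)
  exact (isBoundedUnder_of ⟨1, hup⟩ : IsBoundedUnder (· ≤ ·) atTop
    (fun m : ℕ => (A m : ℝ) / (D m : ℝ))).isCoboundedUnder_ge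

end Pool.Agent.R141.GF
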