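import Pool.Agent.R246.GF.Stm

set_option autoImplicit false

namespace Pool.Agent.R141.GF

open Polynomial

theorem coeff_one_zero (d : ℕ) (a : ℕ → ℂ)
    (h : ∀ t : ℝ, ∑ i ∈ Finset.range (d + 2), a i * (t : ℂ) ^ i = 0) : a 1 = 0 := by
  set p : ℂ[X] := ∑ i ∈ Finset.range (d + 2), Polynomial.C (a i) * Polynomial.X ^ i with hp
  have h0 : p = 0 := by
    apply Polynomial.eq_zero_of_infinite_isRoot
    refine (Set.infinite_range_of_injective Complex.ofReal_injective).mono ?_
    rintro _ ⟨t, rfl⟩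
    show p.IsRoot (t : ℂ)
    rw [Polynomial.IsRoot, hp, Polynomial.eval_finsetSum]
    simpa using h t
  have h1 : p.coeff 1 = a 1 := by
    rw [hp, Polynomial.finsetSum_coeff]
    simp only [Polynomial.coeff_C_mul, Polynomial.coeff_X_pow]
    rw [Finset.sum_eq_single 1]
    · simp
    · intro i _ hi
      rw [if_neg (Ne.symm hi), mul_zero]
    · intro h
      exact absurd (Finset.mem_range.2 (by omega)) h
  rw [← h1, h0, Polynomial.coeff_zero]

theorem pol_list (R : Type) [CommRing R] [Algebra ℂ R] (Φ : R →ₗ[ℂ] ℂ) (V : Set R) (m : ℕ)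
    (hV : ∀ v ∈ V, ∀ w ∈ V, ∀ t : ℝ, v + algebraMap ℂ R (t : ℂ) * w ∈ V)
    (hm : ∀ v ∈ V, Φ (v ^ m) = 0) : ∀ l : List R, (∀ x ∈ l, x ∈ V) → l.length ≤ m → ∀ v ∈ V,
      Φ (l.prod * v ^ (m - l.length)) = 0 := by
  intro l
  induction l with
  | nil =>
    intro _ _ v hv
    simpa using hm v hv
  | cons w l ih =>
    intro hl hlen v hv
    rw [List.length_cons] at hlen
    obtain ⟨d, hd⟩ : ∃ d, m - l.length = d + 1 := ⟨m - l.length - 1, by omega⟩
    have hd' : m - (w :: l).length = d := by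
      rw [List.length_cons]
      omega
    rw [hd', List.prod_cons]
    have hw : w ∈ V := hl w List.mem_cons_self
    have key : ∀ t : ℝ, ∑ i ∈ Finset.range (d + 2),
        (((d + 1).choose i : ℂ) * Φ (l.prod * (w ^ i * v ^ (d + 1 - i)))) * (t : ℂ) ^ i = 0 := by
      intro t
      have h1 := ih (fun x hx => hl x (List.mem_cons_of_mem _ hx)) (by omega) _ (hV v hv w hw t)
      rw [hd] at h1
      rw [← h1, add_comm v, add_pow, Finset.mul_sum, map_sum]
      refine Finset.sum_congr rfl fun i _ => ?_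
      have e : l.prod * ((algebraMap ℂ R (t : ℂ) * w) ^ i * v ^ (d + 1 - i) *
          ((d + 1).choose i : R)) = (((t : ℂ) ^ i * ((d + 1).choose i : ℂ)) : ℂ) •
            (l.prod * (w ^ i * v ^ (d + 1 - i))) := by
        rw [Algebra.smul_def, map_mul, map_pow, map_natCast, mul_pow]
        ring
      rw [e, map_smul, smul_eq_mul]
      ring
    have h2 := coeff_one_zero d _ key
    have h3 : (((d + 1).choose 1 : ℕ) : ℂ) ≠ 0 := by
      rw [Nat.choose_one_right]
      exact_mod_cast Nat.succ_ne_zero d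
    have h4 := (mul_eq_zero.1 h2).resolve_left h3
    rw [pow_one, Nat.add_sub_cancel] at h4
    rw [← h4]
    congr 1
    ring

/-- polarization (`R246.GF.SPOL` with the missing hypothesis `V.Nonempty`) -/
theorem pol : ∀ (R : Type) [CommRing R] [Algebra ℂ R] (Φ : R →ₗ[ℂ] ℂ) (V : Set R) (m : ℕ),
    V.Nonempty →
    (∀ v ∈ V, ∀ w ∈ V, ∀ t : ℝ, v + algebraMap ℂ R (t : ℂ) * w ∈ V) →
    (∀ v ∈ V, Φ (v ^ m) = 0) →
    ∀ x : Fin m → R, (∀ i, x i ∈ V) → Φ (∏ i, x i) = 0 := by
  intro R _ _ Φ V m hne hV hm x hx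
  obtain ⟨v, hv⟩ := hne
  have h := pol_list R Φ V m hV hm (List.ofFn x) (by
    intro y hy
    obtain ⟨i, rfl⟩ := List.mem_ofFn.1 hy
    exact hx i) (by simp) v hv
  rw [List.length_ofFn, Nat.sub_self, pow_zero, mul_one, List.prod_ofFn] at h
  exact h

end Pool.Agent.R141.GF
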