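import Pool.Agent.R246.GF.Stm

set_option autoImplicit false

namespace Pool.Agent.R141.GF

open Matrix Pool.Agent.R246.GF

variable {n : ℕ}

theorem sq_zero (A : Matrix (Fin n) (Fin n) ℝ) (h1 : A.transpose = A) (h2 : A * A = A)
    (h3 : A.trace = 0) : A = 0 := by
  have h4 : (A.transpose * A).trace = 0 := by rw [h1, h2, h3]
  rw [Matrix.trace] at h4
  have h5 : ∀ i ∈ (Finset.univ : Finset (Fin n)), 0 ≤ (A.transpose * A).diag i := by
    intro i _
    rw [Matrix.diag_apply, Matrix.mul_apply]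
    refine Finset.sum_nonneg fun j _ => ?_
    rw [Matrix.transpose_apply]
    exact mul_self_nonneg _
  have h6 := (Finset.sum_eq_zero_iff_of_nonneg h5).1 h4
  ext j i
  have h7 := h6 i (Finset.mem_univ _)
  rw [Matrix.diag_apply, Matrix.mul_apply] at h7
  have h8 := (Finset.sum_eq_zero_iff_of_nonneg (fun j _ => by
    rw [Matrix.transpose_apply]
    exact mul_self_nonneg _)).1 h7 j (Finset.mem_univ _)
  rw [Matrix.transpose_apply] at h8
  simpa using mul_self_eq_zero.1 h8

theorem proj_eq {κ : ℕ} (N : Matrix (Fin n) (Fin n) ℝ) (h1 : N.transpose = N) (h2 : N * N = N)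
    (h3 : N.trace = (κ : ℝ)) (v : Fin κ → Fin n → ℝ)
    (hv : ∀ a b, v a ⬝ᵥ v b = if a = b then 1 else 0) (hN : ∀ a, N *ᵥ v a = v a) :
    N = ∑ a, vecMulVec (v a) (v a) := by
  set R : Matrix (Fin n) (Fin n) ℝ := ∑ a, vecMulVec (v a) (v a) with hR
  have hNR : N * R = R := by
    rw [hR, Matrix.mul_sum]
    refine Finset.sum_congr rfl fun a _ => ?_
    rw [Matrix.mul_vecMulVec, hN]
  have hRt : R.transpose = R := by
    rw [hR, Matrix.transpose_sum]
    refine Finset.sum_congr rfl fun a _ => ?_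
    rw [Matrix.transpose_vecMulVec]
  have hRN : R * N = R := by
    have := congrArg Matrix.transpose hNR
    rwa [Matrix.transpose_mul, h1, hRt] at this
  have hRR : R * R = R := by
    have h5 : ∀ a, R *ᵥ v a = v a := by
      intro a
      rw [hR, Matrix.sum_mulVec]
      have : ∀ b ∈ (Finset.univ : Finset (Fin κ)), vecMulVec (v b) (v b) *ᵥ v a =
          if b = a then v a else 0 := by
        intro b _
        rw [Matrix.vecMulVec_mulVec, hv]
        by_cases hab : b = a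
        · subst hab
          simp
        · simp [hab]
      rw [Finset.sum_congr rfl this]
      simp
    conv_lhs => rw [hR, Matrix.mul_sum]
    rw [hR]
    refine Finset.sum_congr rfl fun a _ => ?_
    rw [← hR, Matrix.mul_vecMulVec, h5]
  have htr : R.trace = (κ : ℝ) := by
    rw [hR, Matrix.trace_sum]
    have : ∀ a ∈ (Finset.univ : Finset (Fin κ)), (vecMulVec (v a) (v a)).trace = 1 := by
      intro a _
      rw [Matrix.trace_vecMulVec, hv, if_pos rfl]
    rw [Finset.sum_congr rfl this]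
    simp
  have h0 : N - R = 0 := by
    apply sq_zero
    · rw [Matrix.transpose_sub, h1, hRt]
    · rw [Matrix.sub_mul, Matrix.mul_sub, Matrix.mul_sub, h2, hNR, hRN, hRR]
      abel
    · rw [Matrix.trace_sub, h3, htr, sub_self]
  exact sub_eq_zero.1 h0

theorem symm_dot (N : Matrix (Fin n) (Fin n) ℝ) (h1 : N.transpose = N) (x y : Fin n → ℝ) :
    x ⬝ᵥ (N *ᵥ y) = (N *ᵥ x) ⬝ᵥ y := by
  rw [Matrix.dotProduct_mulVec, ← Matrix.mulVec_transpose, h1]

/-- a contraction argument -/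
theorem fix_of (N : Matrix (Fin n) (Fin n) ℝ) (h1 : N.transpose = N) (h2 : N * N = N)
    (e f : Fin n → ℝ) (he : e ⬝ᵥ e = 1)
    (h : e ⬝ᵥ (N *ᵥ e) - f ⬝ᵥ (N *ᵥ f) = 1) : N *ᵥ e = e ∧ N *ᵥ f = 0 := by
  have hq : ∀ x : Fin n → ℝ, x ⬝ᵥ (N *ᵥ x) = (N *ᵥ x) ⬝ᵥ (N *ᵥ x) := by
    intro x
    rw [← symm_dot N h1, Matrix.mulVec_mulVec, h2]
  have hf0 : 0 ≤ (N *ᵥ f) ⬝ᵥ (N *ᵥ f) := by
    refine Finset.sum_nonneg fun i _ => mul_self_nonneg _
  have he0 : 0 ≤ (e - N *ᵥ e) ⬝ᵥ (e - N *ᵥ e) := by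
    refine Finset.sum_nonneg fun i _ => mul_self_nonneg _
  have he1 : (e - N *ᵥ e) ⬝ᵥ (e - N *ᵥ e) = 1 - e ⬝ᵥ (N *ᵥ e) := by
    rw [sub_dotProduct, dotProduct_sub, dotProduct_sub, he, ← hq, dotProduct_comm (N *ᵥ e) e]
    ring
  rw [hq f] at h
  have h3 : (e - N *ᵥ e) ⬝ᵥ (e - N *ᵥ e) = 0 := by linarith
  have h4 : (N *ᵥ f) ⬝ᵥ (N *ᵥ f) = 0 := by linarith
  rw [dotProduct_self_eq_zero] at h3 h4
  exact ⟨(sub_eq_zero.1 h3).symm, h4⟩

theorem BB_eq {κ : ℕ} (e f : Fin κ → Fin n → ℝ) (Q : Pt n) (a b : Fin κ) :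
    BB e f Q a b = ((e a ⬝ᵥ (M Q *ᵥ e b) - f a ⬝ᵥ (M Q *ᵥ f b) : ℝ) : ℂ) +
      Complex.I * ((e a ⬝ᵥ (M Q *ᵥ f b) + f a ⬝ᵥ (M Q *ᵥ e b) : ℝ) : ℂ) := by
  have hh : ∀ x y : Fin n → ℝ, ((x ⬝ᵥ (M Q *ᵥ y) : ℝ) : ℂ) =
      ∑ r, ∑ s, (x r : ℂ) * ((Q (r, s) : ℝ) : ℂ) * (y s : ℂ) := by
    intro x y
    simp only [dotProduct, Matrix.mulVec, M, Matrix.of_apply, Complex.ofReal_sum,
      Complex.ofReal_mul, Finset.mul_sum]
    refine Finset.sum_congr rfl fun r _ => Finset.sum_congr rfl fun s _ => ?_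
    ring
  rw [Complex.ofReal_sub, Complex.ofReal_add, hh, hh, hh, hh, BB, Matrix.of_apply]
  simp only [Finset.mul_sum, ← Finset.sum_add_distrib, ← Finset.sum_sub_distrib]
  refine Finset.sum_congr rfl fun r _ => Finset.sum_congr rfl fun s _ => ?_
  rw [zz, zz]
  have hI := Complex.I_mul_I
  linear_combination ((f a r : ℂ) * ((Q (r, s) : ℝ) : ℂ) * (f b s : ℂ)) * hI

theorem sep : SSEP := by
  intro n k P Q hk hP hQ e f hF hPe hPf hu
  obtain ⟨he, hf, hef⟩ := hF
  obtain ⟨hQ1, hQ2, hQ3⟩ := hQ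
  obtain ⟨hP1, hP2, hP3⟩ := hP
  have main : ∀ j : Fin (min k (n - k)), M Q *ᵥ e j = e j ∧ M Q *ᵥ f j = 0 := by
    intro j
    induction j using WellFoundedLT.induction with
    | ind j ih =>
    have hoff : ∀ a b : Fin (min k (n - k)), (a < j ∨ b < j) →
        BB e f Q a b = if a = b then 1 else 0 := by
      intro a b hab
      rw [BB_eq]
      rcases hab with h | h
      · obtain ⟨h1, h2⟩ := ih a h
        rw [symm_dot _ hQ1, symm_dot _ hQ1, symm_dot _ hQ1, symm_dot _ hQ1, h1, h2,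
          zero_dotProduct, zero_dotProduct, he, hef]
        by_cases hab : a = b <;> simp [hab]
      · obtain ⟨h1, h2⟩ := ih b h
        rw [h1, h2, dotProduct_zero, dotProduct_zero, he, dotProduct_comm (f a), hef]
        by_cases hab : a = b <;> simp [hab]
    have hdet := hu j
    rw [uu, lead] at hdet
    set ι : Fin ((j : ℕ) + 1) → Fin (min k (n - k)) := Fin.castLE (Nat.succ_le_of_lt j.2) with hι
    have hdiag : (BB e f Q).submatrix ι ι = Matrix.diagonal (fun i : Fin ((j : ℕ) + 1) =>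
        if i = Fin.last _ then BB e f Q j j else 1) := by
      ext i i'
      rw [Matrix.submatrix_apply, Matrix.diagonal_apply]
      have hinj : ∀ i i' : Fin ((j : ℕ) + 1), ι i = ι i' ↔ i = i' := by
        intro i i'
        rw [hι, Fin.ext_iff, Fin.ext_iff, Fin.val_castLE, Fin.val_castLE]
      by_cases h1 : i = Fin.last _
      · by_cases h2 : i' = Fin.last _
        · have h3 : ι (Fin.last _) = j := by
            rw [hι, Fin.ext_iff, Fin.val_castLE, Fin.val_last]
          rw [h1, h2, h3]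
          simp
        · have h3 : ι i' < j := by
            rw [hι, Fin.lt_def, Fin.val_castLE]
            have h4 := Fin.lt_last_iff_ne_last.2 h2
            rw [Fin.lt_def, Fin.val_last] at h4
            exact h4
          rw [hoff _ _ (Or.inr h3)]
          have h4 : i ≠ i' := fun h => h2 (h ▸ h1)
          rw [if_neg h4, if_neg (fun h => h4 ((hinj _ _).1 h))]
      · have h3 : ι i < j := by
          rw [hι, Fin.lt_def, Fin.val_castLE]
          have h4 := Fin.lt_last_iff_ne_last.2 h1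
          rw [Fin.lt_def, Fin.val_last] at h4
          exact h4
        rw [hoff _ _ (Or.inl h3), if_neg h1]
        by_cases h4 : i = i'
        · rw [if_pos h4, if_pos ((hinj _ _).2 h4)]
        · rw [if_neg h4, if_neg (fun h => h4 ((hinj _ _).1 h))]
    rw [hdiag, Matrix.det_diagonal, Finset.prod_ite_eq' Finset.univ (Fin.last _)
      (fun _ => BB e f Q j j), if_pos (Finset.mem_univ _), BB_eq] at hdet
    have hre := congrArg Complex.re hdet
    have h1 : e j ⬝ᵥ (M Q *ᵥ e j) - f j ⬝ᵥ (M Q *ᵥ f j) = 1 := by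
      simpa using hre
    exact fix_of (M Q) hQ1 hQ2 (e j) (f j) (by rw [he, if_pos rfl]) h1
  have hMM : M Q = M P := by
    rcases le_total k (n - k) with h | h
    · have hmin : (((min k (n - k) : ℕ)) : ℝ) = (k : ℝ) := by rw [Nat.min_eq_left h]
      rw [proj_eq (M Q) hQ1 hQ2 (by rw [hQ3, hmin]) e he (fun a => (main a).1),
        ← proj_eq (M P) hP1 hP2 (by rw [hP3, hmin]) e he hPe]
    · have hmin : (((min k (n - k) : ℕ)) : ℝ) = (n : ℝ) - (k : ℝ) := by
        rw [Nat.min_eq_right h, Nat.cast_sub hk]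
      have hone : ∀ N : Matrix (Fin n) (Fin n) ℝ, N.transpose = N → N * N = N →
          N.trace = (k : ℝ) → (∀ a, N *ᵥ f a = 0) → 1 - N = ∑ a, vecMulVec (f a) (f a) := by
        intro N h1 h2 h3 h4
        apply proj_eq (1 - N) _ _ _ f hf
        · intro a
          rw [Matrix.sub_mulVec, Matrix.one_mulVec, h4, sub_zero]
        · rw [Matrix.transpose_sub, Matrix.transpose_one, h1]
        · rw [Matrix.sub_mul, Matrix.mul_sub, Matrix.mul_sub, h2, Matrix.one_mul, Matrix.mul_one,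
            Matrix.one_mul]
          abel
        · rw [Matrix.trace_sub, Matrix.trace_one, h3, hmin, Fintype.card_fin]
      have e1 := hone (M Q) hQ1 hQ2 hQ3 (fun a => (main a).2)
      have e2 := hone (M P) hP1 hP2 hP3 hPf
      rw [← e2] at e1
      exact sub_right_injective e1
  funext ⟨i, j⟩
  have := congrFun (congrFun hMM i) j
  simpa [M] using this

end Pool.Agent.R141.GF
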